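import Mathlib
import Pool.Agent.P.MP_98688b_an.AmpDefs
import Pool.Agent.P.MP_98688b_an.AmpMain

/-!
A commutative unital separable semisimple Banach algebra that is approximately amenable, hence
approximately semi-amenable, and not boundedly approximately semi-amenable.
-/

namespace Pool.Agent.Results.MP_98688b_an.CommUnital

open Pool.Agent.P.MP_98688b_an

universe u v

theorem result :
    ∃ (A : Type) (_ : NormedCommRing A) (_ : NormedAlgebra ℂ A) (_ : CompleteSpace A),
      ‖(1 : A)‖ = 1 ∧ TopologicalSpace.SeparableSpace A ∧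
        (∀ a : A, (∀ χ : A →ₐ[ℂ] ℂ, χ a = 0) → a = 0) ∧
          IsApproxAmenable.{u, v} A ∧ IsApproxSemiAmenable.{u, v} A ∧
            ¬ IsBddApproxSemiAmenable.{u, v} A :=
  comm_unital

end Pool.Agent.Results.MP_98688b_an.CommUnital
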