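import Mathlib
import Pool.Agent.P.MP_98688b_an.Defs
import Pool.Agent.P.MP_98688b_an.N.Defs
import Pool.Agent.P.MP_98688b_an.N.Pos
import Pool.Agent.P.MP_98688b_an.N.Neg
import Pool.Agent.P.MP_98688b_an.N.Lorentz

/-!
Minimal symmetrically normed operator ideals that are not contained in the trace class and do not
contain the harmonic diagonal operator are approximately semi-amenable and not boundedly
approximately semi-amenable, and such ideals exist.
-/

namespace Pool.Agent.Results.MP_98688b_an.NormedIdeals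

open Pool.Agent.P.MP_98688b_an Pool.Agent.P.MP_98688b_an.N

universe u v

theorem result {H : Type} [NormedAddCommGroup H] [InnerProductSpace ℂ H] [CompleteSpace H]
    (b : HilbertBasis ℕ ℂ H) :
    (∀ (J : Type) [NonUnitalNormedRing J] [NormedSpace ℂ J] [IsScalarTower ℂ J J]
      [SMulCommClass ℂ J J] [CompleteSpace J] (ι : J →ₗ[ℂ] H →L[ℂ] H), IsNormedIdeal ι →
      (∃ a, ¬ Summable fun n => ‖inner ℂ (b n) (ι a (b n))‖) →
      (¬ ∃ a, ∀ n, ι a (b n) = (1 / ((n : ℂ) + 1)) • b n) →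
      IsApproxSemiAmenable.{u, v} J ∧ ¬ IsBddApproxSemiAmenable.{u, v} J) ∧
    ∃ (J : Type) (_ : NonUnitalNormedRing J) (_ : NormedSpace ℂ J) (_ : IsScalarTower ℂ J J)
      (_ : SMulCommClass ℂ J J) (_ : CompleteSpace J) (ι : J →ₗ[ℂ] H →L[ℂ] H), IsNormedIdeal ι ∧
      (∃ a, ¬ Summable fun n => ‖inner ℂ (b n) (ι a (b n))‖) ∧
      ¬ ∃ a, ∀ n, ι a (b n) = (1 / ((n : ℂ) + 1)) • b n :=
  ⟨fun _ _ _ _ _ _ _ h ⟨a, ha⟩ hh => ⟨h.approx b.orthonormal hh,
    fun hJ => ha (h.summable_of_bdd b.orthonormal hh hJ a)⟩, exists_example b.orthonormal⟩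

end Pool.Agent.Results.MP_98688b_an.NormedIdeals
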