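import Mathlib
import Pool.Agent.P.MP_98688b_an.AmpDefs
import Pool.Agent.P.MP_98688b_an.AmpMain

/-!
The algebra `Amp A` separates the two semi notions exactly when `A` is approximately amenable
and not amenable.
-/

namespace Pool.Agent.Results.MP_98688b_an.Rescaled

open Pool.Agent.P.MP_98688b_an

universe u v

theorem result (A : Type) [NonUnitalNormedRing A] [NormedSpace ℂ A] [IsScalarTower ℂ A A]
    [SMulCommClass ℂ A A] [CompleteSpace A] :
    IsApproxSemiAmenable.{u, v} (Amp A) ∧ ¬ IsBddApproxSemiAmenable.{u, v} (Amp A) ↔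
      IsApproxAmenable.{u, v} A ∧ ¬ IsAmenable.{u} A :=
  Amp.rescaled

end Pool.Agent.Results.MP_98688b_an.Rescaled
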